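import Pool.Agent.Helper69.MD.Final

/-!
# Extreme points of the bodies minimising `δ_L` or `δ_{L*}` are contact points

If cutting off arbitrarily small caps of a convex body `K ⊂ ℝ³` at an extreme point `p` never
decreases `δ_L` (for instance if `K` is a minimiser, or a local minimiser, of `δ_L`), then `p` is
a point of contact of `K` with another member of some densest lattice packing of `K`.  The same
holds for `δ_{L*}`.
-/

set_option autoImplicit false

namespace Pool.Agent.Results.MP_3d065d_co.ExtremeContact

open Pool.Agent.Helper69.MD Metric MeasureTheory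
open scoped Pointwise ENNReal

/-- Let `K` be a convex body in `ℝ³`, `p` an extreme point of `K` and `ε > 0`, and suppose that
`δ_L(K) ≤ δ_L(K')` for all convex bodies `K' ⊆ K` that contain `K ∖ B(p, ε)`. Then some lattice
packing of `K` with density `δ_L(K)` has a member `u + K`, `u ≠ 0`, which contains `p`. Likewise,
if `δ_{L*}(K) ≤ δ_{L*}(K')` for all such `K'`, then in some packing of the class of `δ_{L*}` with
density `δ_{L*}(K)` a member different from `K` contains `p`. -/
theorem result (K : Set E3) (hK : IsConvexBody K) (p : E3) (hp : p ∈ K.extremePoints ℝ) (ε : ℝ)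
    (hε : 0 < ε) :
    (CutStable deltaL K p ε → ∃ Λ : Submodule ℤ E3, IsLattice Λ ∧ IsPacking K Λ ∧
      density K Λ = deltaL K ∧ ∃ u ∈ Λ, u ≠ 0 ∧ p ∈ u +ᵥ K) ∧
    (CutStable deltaLstar K p ε → ∃ (Λ : Submodule ℤ E3) (v : E3), IsLattice Λ ∧
      IsDoublePacking K v Λ ∧ density (K ∪ (v +ᵥ -K)) Λ = deltaLstar K ∧
      ∃ u ∈ Λ, (u ≠ 0 ∧ p ∈ u +ᵥ K) ∨ p ∈ u +ᵥ (v +ᵥ -K)) := by
  constructor
  · intro hmin
    have hmin' : ∀ K', IsConvexBody K' → K' ⊆ K → K \ ball p ε ⊆ K' → dg sU K ≤ dg sU K' := by
      intro K' h1 h2 h3
      rw [← deltaL_eq hK, ← deltaL_eq h1]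
      exact hmin K' h1 h2 h3
    obtain ⟨Λ, h1, h2, v, hconf, hd, i, j, u, hu, hne, ht⟩ :=
      contact sU_sign hK (dg_sU_ne_zero hK) hp hε hmin'
    refine ⟨Λ, ⟨h1, h2⟩, isPacking_iff_conf.2 hconf, ?_, u, hu, ?_, ?_⟩
    · rw [density_eq hK.isCompact.isBounded, deltaL_eq hK, ← hd]
      simp
    · rcases hne with h | h
      · exact absurd (Subsingleton.elim i j) h
      · exact h
    · rw [Set.mem_vadd_set_iff_neg_vadd_mem, vadd_eq_add]
      unfold Touch at ht
      have e : sU j • (v i + sU i • p - (u + v j)) = -u + p := by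
        rw [Subsingleton.elim i j]
        simp only [sU, one_smul]
        abel
      rw [← e]
      exact ht
  · intro hmin
    have hmin' : ∀ K', IsConvexBody K' → K' ⊆ K → K \ ball p ε ⊆ K' → dg sB K ≤ dg sB K' := by
      intro K' h1 h2 h3
      rw [← deltaLstar_eq hK, ← deltaLstar_eq h1]
      exact hmin K' h1 h2 h3
    obtain ⟨Λ, h1, h2, w, hconf, hd, i, j, u, hu, hne, ht⟩ :=
      contact sB_sign hK (dg_sB_ne_zero hK) hp hε hmin'
    obtain ⟨hdis, hpack⟩ := (packing_star_iff hK).2 (conf_translate.1 hconf)
    refine ⟨Λ, w true - w false, ⟨h1, h2⟩, ⟨hdis, hpack⟩, ?_, ?_⟩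
    · rw [density_eq (hK.isCompact.isBounded.union (body_neg_shift hK _).isCompact.isBounded),
        volume_star hK hdis, deltaLstar_eq hK, ← hd]
      simp
    · unfold Touch at ht
      simp only [Set.mem_vadd_set_iff_neg_vadd_mem, vadd_eq_add, Set.mem_neg]
      cases i <;> cases j
      · refine ⟨u, hu, Or.inl ⟨by simpa using hne, ?_⟩⟩
        have e : sB false • (w false + sB false • p - (u + w false)) = -u + p := by
          simp only [sB, Bool.false_eq_true, if_false, one_smul]
          abel
        rw [← e]
        exact ht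
      · refine ⟨u, hu, Or.inr ?_⟩
        have e : sB true • (w false + sB false • p - (u + w true)) =
            -(-(w true - w false) + (-u + p)) := by
          simp only [sB, Bool.false_eq_true, if_false, if_true, one_smul, neg_one_smul]
          abel
        rw [← e]
        exact ht
      · refine ⟨-u, Λ.neg_mem hu, Or.inr ?_⟩
        have e : sB false • (w true + sB true • p - (u + w false)) =
            -(-(w true - w false) + (- -u + p)) := by
          simp only [sB, Bool.false_eq_true, if_false, if_true, one_smul, neg_one_smul]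
          abel
        rw [← e]
        exact ht
      · refine ⟨-u, Λ.neg_mem hu, Or.inl ⟨neg_ne_zero.2 (by simpa using hne), ?_⟩⟩
        have e : sB true • (w true + sB true • p - (u + w true)) = - -u + p := by
          simp only [sB, if_true, neg_one_smul]
          abel
        rw [← e]
        exact ht

end Pool.Agent.Results.MP_3d065d_co.ExtremeContact
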