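import Pool.Agent.Helper69.GGM.Main

open Filter Topology
open Pool.Agent.Helper57.PC

namespace Pool.Agent.Results.MP_8958e8_nt.LogDerivMeanSquare

/-- The Goldston-Gonek-Montgomery equivalence without the Riemann hypothesis. Let `l` be a countably
generated filter finer than `atTop` (for instance `atTop` itself, or a sequence of heights tending
to infinity). The pair correlation conjecture holds along `l` if and only if, for every fixed
`a > 0`, the mean square over `[0,T]` of `ζ'/ζ(1/2 + a/log T + it)/log T`, capped at `B`, is within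
any given `ε` of `(1 - exp(-2a))/(4a²)` once `B` is large and then `T` is large along `l`.

The cap is needed because a single zero with real part `1/2 + a/log T` makes the uncapped integral
infinite. Nothing is assumed about zeros off the critical line: each of the two sides is shown to
force almost all zeros to lie within `o(1/log T)` of it. -/
theorem result (l : Filter ℝ) [l.IsCountablyGenerated] (hl : l ≤ atTop) :
    (∀ α β : ℝ, 0 < α → α < β →
      Tendsto (fun T : ℝ => pairCount T α β / (T * Real.log T / (2 * Real.pi))) l
        (𝓝 (∫ u in α..β, pcDensity u))) ↔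
    ∀ a : ℝ, 0 < a → ∀ ε : ℝ, 0 < ε → ∃ B₀ : ℝ, ∀ B : ℝ, B₀ ≤ B → ∀ᶠ T : ℝ in l,
      |(1 / T) * (∫ t in (0:ℝ)..T, min (‖logDeriv riemannZeta
          (((1 / 2 + a / Real.log T : ℝ) : ℂ) + (t : ℂ) * Complex.I) / (Real.log T : ℂ)‖ ^ 2) B) -
        (1 - Real.exp (-2 * a)) / (4 * a ^ 2)| ≤ ε :=
  Pool.Agent.Helper69.GGM.main_iff hl

end Pool.Agent.Results.MP_8958e8_nt.LogDerivMeanSquare
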